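import Mathlib

/-!
# The book graph `K_{1,1,5}` violates the edge marginal inequality

For the graph with vertices `u, v, w₁, …, w₅` and edges `uv`, `u wᵢ`, `v wᵢ`, the marginal of the
edge `uv` under the uniform 2-forest is `5/17`, which exceeds its marginal `2/7` under the uniform
spanning tree.
-/

set_option autoImplicit false

namespace Pool.Agent.Results.MP_83c1a8_pr.BookGraph

open SimpleGraph Finset

section Defs

variable {V : Type}

/-- The spanning subgraph `(V, A)` with set of open edges `A`. -/
def spanning (A : Finset (Sym2 V)) : SimpleGraph V :=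
  SimpleGraph.fromEdgeSet (A : Set (Sym2 V))

/-- The (edge sets of) spanning trees of `G`: connected and acyclic spanning subgraphs. -/
def spanningTrees (G : SimpleGraph V) : Set (Finset (Sym2 V)) :=
  {A | (A : Set (Sym2 V)) ⊆ G.edgeSet ∧ (spanning A).IsTree}

/-- The (edge sets of) 2-forests of `G`: acyclic spanning subgraphs with exactly two connected
components. -/
def twoForests (G : SimpleGraph V) : Set (Finset (Sym2 V)) :=
  {A | (A : Set (Sym2 V)) ⊆ G.edgeSet ∧ (spanning A).IsAcyclic ∧
    Nat.card (spanning A).ConnectedComponent = 2}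

/-- The (edge sets of) connected spanning subgraphs of `G` with exactly `|V| + 2` edges. -/
def excessTwo (G : SimpleGraph V) : Set (Finset (Sym2 V)) :=
  {A | (A : Set (Sym2 V)) ⊆ G.edgeSet ∧ (spanning A).Connected ∧ #A = Nat.card V + 2}

/-- The probability that the edge `e` is open under the uniform probability measure on the
(finite) set `S` of configurations. -/
noncomputable def marginal (S : Set (Finset (Sym2 V))) (e : Sym2 V) : ℝ :=
  ({A ∈ S | e ∈ A}.ncard : ℝ) / (S.ncard : ℝ)

end Defs

/-! ### The graph -/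

/-- The book graph `K_{1,1,5}` on `Fin 7`: distinct vertices are adjacent iff one of them
is `0` or `1`. -/
def book : SimpleGraph (Fin 7) where
  Adj x y := x ≠ y ∧ (x < 2 ∨ y < 2)
  symm := ⟨fun _ _ h => ⟨h.1.symm, h.2.symm⟩⟩
  loopless := ⟨fun _ h => h.1 rfl⟩

instance : DecidableRel book.Adj := fun x y =>
  inferInstanceAs (Decidable (x ≠ y ∧ (x < 2 ∨ y < 2)))

/-- The endpoints of the eleven edges. -/
def pr : Fin 11 → Fin 7 × Fin 7 :=
  ![(0,1), (0,2), (0,3), (0,4), (0,5), (0,6), (1,2), (1,3), (1,4), (1,5), (1,6)]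

/-- The eleven edges. -/
def ed (i : Fin 11) : Sym2 (Fin 7) := s((pr i).1, (pr i).2)

lemma ed_injective : Function.Injective ed := by
  decide +kernel

lemma ed_mem (i : Fin 11) : ed i ∈ book.edgeFinset := by
  rw [mem_edgeFinset]
  revert i
  decide +kernel

lemma card_edges : book.edgeFinset.card = 11 := by
  decide +kernel

/-- The edge set coded by the binary digits of `m`. -/
def cfg (m : ℕ) : Finset (Sym2 (Fin 7)) :=
  (Finset.univ.filter (fun i : Fin 11 => m.testBit i)).image ed

lemma mem_cfg (m : ℕ) (e : Sym2 (Fin 7)) : e ∈ cfg m ↔ ∃ i : Fin 11, m.testBit i ∧ ed i = e := by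
  simp [cfg]

lemma ed_mem_cfg (m : ℕ) (i : Fin 11) : ed i ∈ cfg m ↔ m.testBit i := by
  rw [mem_cfg]
  constructor
  · rintro ⟨j, hj, hij⟩
    rwa [← ed_injective hij]
  · exact fun h => ⟨i, h, rfl⟩

lemma cfg_subset (m : ℕ) : cfg m ⊆ book.edgeFinset := by
  intro e he
  obtain ⟨i, -, rfl⟩ := (mem_cfg m e).mp he
  exact ed_mem i

lemma cfg_injOn : Set.InjOn cfg (Finset.range 2048 : Finset ℕ) := by
  intro m hm m' hm' h
  have hm1 : m < 2 ^ 11 := by simpa using hm
  have hm2 : m' < 2 ^ 11 := by simpa using hm'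
  apply Nat.eq_of_testBit_eq
  intro i
  by_cases hi : i < 11
  · have h1 := ed_mem_cfg m ⟨i, hi⟩
    have h2 := ed_mem_cfg m' ⟨i, hi⟩
    rw [h, h2] at h1
    simpa using h1.symm
  · have hle : 2 ^ 11 ≤ 2 ^ i := Nat.pow_le_pow_right (by norm_num) (by omega)
    rw [Nat.testBit_lt_two_pow (lt_of_lt_of_le hm1 hle),
      Nat.testBit_lt_two_pow (lt_of_lt_of_le hm2 hle)]

lemma powerset_eq : book.edgeFinset.powerset = (Finset.range 2048).image cfg := by
  symm
  apply Finset.eq_of_subset_of_card_le
  · intro A hA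
    obtain ⟨m, -, rfl⟩ := Finset.mem_image.mp hA
    exact Finset.mem_powerset.mpr (cfg_subset m)
  · rw [Finset.card_image_of_injOn cfg_injOn, Finset.card_powerset, card_edges]
    simp

/-- Transfer of a count over subsets of edges to a count over codes. -/
lemma card_filter (P : Finset (Sym2 (Fin 7)) → Prop) [DecidablePred P] (Q : ℕ → Bool)
    (h : ∀ m < 2048, P (cfg m) ↔ Q m = true) :
    #{A ∈ book.edgeFinset.powerset | P A} = #{m ∈ Finset.range 2048 | Q m = true} := by
  have hcongr : Finset.filter (fun m => P (cfg m)) (Finset.range 2048) =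
      Finset.filter (fun m => Q m = true) (Finset.range 2048) :=
    Finset.filter_congr (fun m hm => h m (Finset.mem_range.mp hm))
  rw [powerset_eq, Finset.filter_image, ← hcongr, Finset.card_image_of_injOn]
  · exact cfg_injOn.mono (by
      intro x hx
      have := Finset.mem_coe.mp hx
      exact Finset.mem_coe.mpr (Finset.mem_filter.mp this).1)

/-! ### Reachability by bit masks -/

/-- The edges as triples (index, endpoint, endpoint). -/
def eL : List (ℕ × ℕ × ℕ) :=
  [(0,0,1), (1,0,2), (2,0,3), (3,0,4), (4,0,5), (5,0,6), (6,1,2), (7,1,3), (8,1,4), (9,1,5),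
    (10,1,6)]

/-- Process one edge. -/
def stepE (m S : ℕ) (q : ℕ × ℕ × ℕ) : ℕ :=
  bif m.testBit q.1 && (S.testBit q.2.1 || S.testBit q.2.2) then
    S ||| (1 <<< q.2.1 ||| 1 <<< q.2.2) else S

/-- Process all edges once. -/
def rnd (m S : ℕ) : ℕ := eL.foldl (stepE m) S

/-- The set (bit mask) reached from `x`. -/
def reach (m x : ℕ) : ℕ := rnd m (rnd m (rnd m (rnd m (1 <<< x))))

/-- Data check: the mask contains the start and is closed under open edges. -/
def closedB (m x : ℕ) : Bool :=
  (reach m x).testBit x &&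
    eL.all (fun q => !(m.testBit q.1) || ((reach m x).testBit q.2.1 == (reach m x).testBit q.2.2))

/-- Number of open edges of the code `m`. -/
def cnt (m : ℕ) : ℕ := (eL.filter (fun q => m.testBit q.1)).length

/-- The first vertex not in the mask `S` (among `1, …, 6`, with default `6`). -/
def firstOut (S : ℕ) : ℕ :=
  bif !(S.testBit 1) then 1 else bif !(S.testBit 2) then 2 else bif !(S.testBit 3) then 3 else
  bif !(S.testBit 4) then 4 else bif !(S.testBit 5) then 5 else 6

/-- Everything that has to be checked about the code `m`. -/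
def check (m : ℕ) : Bool :=
  (!(cnt m == 6) || closedB m 0) &&
  (!(cnt m == 5) || (closedB m 0 && (closedB m (firstOut (reach m 0)) &&
    !((reach m 0).testBit (firstOut (reach m 0))))))

set_option maxRecDepth 100000 in
lemma check_all : ∀ m ∈ List.range 2048, check m = true := by
  decide +kernel

lemma card_cfg_aux : ∀ m ∈ List.range 2048,
    (Finset.univ.filter (fun i : Fin 11 => m.testBit i)).card = cnt m := by
  decide +kernel

lemma card_cfg (m : ℕ) (hm : m < 2048) : #(cfg m) = cnt m := by
  unfold cfg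
  rw [Finset.card_image_of_injective _ ed_injective]
  exact card_cfg_aux m (List.mem_range.mpr hm)

lemma eL_ed : ∀ q ∈ eL, ∃ i : Fin 11, (i : ℕ) = q.1 ∧ (((pr i).1 : Fin 7) : ℕ) = q.2.1 ∧
    (((pr i).2 : Fin 7) : ℕ) = q.2.2 := by
  decide +kernel

lemma ed_eL : ∀ i : Fin 11, ((i : ℕ), (((pr i).1 : Fin 7) : ℕ), (((pr i).2 : Fin 7) : ℕ)) ∈ eL := by
  decide +kernel

/-- The invariant: all elements of the mask are reachable from `x`. -/
def Inv (m : ℕ) (x : Fin 7) (S : ℕ) : Prop :=
  ∀ z, S.testBit z = true → ∃ hz : z < 7, (spanning (cfg m)).Reachable x ⟨z, hz⟩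

lemma pr_ne : ∀ i : Fin 11, (pr i).1 ≠ (pr i).2 := by
  decide +kernel

lemma adj_of_testBit (m : ℕ) (i : Fin 11) (h : m.testBit i = true) :
    (spanning (cfg m)).Adj (pr i).1 (pr i).2 := by
  unfold spanning
  rw [fromEdgeSet_adj]
  refine ⟨?_, ?_⟩
  · exact Finset.mem_coe.mpr ((ed_mem_cfg m i).mpr h)
  · exact pr_ne i

lemma inv_stepE (m : ℕ) (x : Fin 7) (S : ℕ) (hS : Inv m x S) (q : ℕ × ℕ × ℕ) (hq : q ∈ eL) :
    Inv m x (stepE m S q) := by
  unfold stepE
  cases hc : (m.testBit q.1 && (S.testBit q.2.1 || S.testBit q.2.2)) with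
  | false => exact hS
  | true =>
    simp only [Bool.and_eq_true, Bool.or_eq_true] at hc
    obtain ⟨h1, h2⟩ := hc
    obtain ⟨i, hi1, hi2, hi3⟩ := eL_ed q hq
    rw [← hi1] at h1
    have hadj := adj_of_testBit m i h1
    have hboth : (spanning (cfg m)).Reachable x (pr i).1 ∧
        (spanning (cfg m)).Reachable x (pr i).2 := by
      rcases h2 with h2 | h2
      · obtain ⟨hz, hr⟩ := hS _ h2
        have : (⟨q.2.1, hz⟩ : Fin 7) = (pr i).1 := Fin.ext hi2.symm
        rw [this] at hr
        exact ⟨hr, hr.trans hadj.reachable⟩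
      · obtain ⟨hz, hr⟩ := hS _ h2
        have : (⟨q.2.2, hz⟩ : Fin 7) = (pr i).2 := Fin.ext hi3.symm
        rw [this] at hr
        exact ⟨hr.trans hadj.symm.reachable, hr⟩
    intro z hz
    simp only [cond_true, Nat.testBit_or, Nat.testBit_shiftLeft, Bool.or_eq_true,
      Bool.and_eq_true, decide_eq_true_eq] at hz
    rcases hz with hz | ⟨hz1, hz2⟩ | ⟨hz1, hz2⟩
    · exact hS z hz
    · have hz3 : z = q.2.1 := by
        by_contra hne
        have : z - q.2.1 ≠ 0 := by omega
        obtain ⟨k, hk⟩ := Nat.exists_eq_succ_of_ne_zero this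
        rw [hk] at hz2
        simp [Nat.testBit_one_eq_true_iff_self_eq_zero] at hz2
      subst hz3
      refine ⟨hi2 ▸ (pr i).1.2, ?_⟩
      have : (⟨q.2.1, hi2 ▸ (pr i).1.2⟩ : Fin 7) = (pr i).1 := Fin.ext hi2.symm
      rw [this]
      exact hboth.1
    · have hz3 : z = q.2.2 := by
        by_contra hne
        have : z - q.2.2 ≠ 0 := by omega
        obtain ⟨k, hk⟩ := Nat.exists_eq_succ_of_ne_zero this
        rw [hk] at hz2
        simp [Nat.testBit_one_eq_true_iff_self_eq_zero] at hz2
      subst hz3
      refine ⟨hi3 ▸ (pr i).2.2, ?_⟩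
      have : (⟨q.2.2, hi3 ▸ (pr i).2.2⟩ : Fin 7) = (pr i).2 := Fin.ext hi3.symm
      rw [this]
      exact hboth.2

lemma inv_foldl (m : ℕ) (x : Fin 7) (L : List (ℕ × ℕ × ℕ)) (hL : ∀ q ∈ L, q ∈ eL) :
    ∀ S, Inv m x S → Inv m x (L.foldl (stepE m) S) := by
  induction L with
  | nil => exact fun S hS => hS
  | cons q L ih =>
    intro S hS
    exact ih (fun r hr => hL r (List.mem_cons_of_mem _ hr)) _
      (inv_stepE m x S hS q (hL q List.mem_cons_self))

lemma inv_rnd (m : ℕ) (x : Fin 7) (S : ℕ) (hS : Inv m x S) : Inv m x (rnd m S) :=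
  inv_foldl m x eL (fun _ h => h) S hS

lemma inv_reach (m : ℕ) (x : Fin 7) : Inv m x (reach m x) := by
  unfold reach
  refine inv_rnd _ _ _ (inv_rnd _ _ _ (inv_rnd _ _ _ (inv_rnd _ _ _ ?_)))
  intro z hz
  simp only [Nat.testBit_shiftLeft, Bool.and_eq_true, decide_eq_true_eq] at hz
  have hz3 : z = x := by
    by_contra hne
    have : z - (x : ℕ) ≠ 0 := by omega
    obtain ⟨k, hk⟩ := Nat.exists_eq_succ_of_ne_zero this
    rw [hk] at hz
    simp [Nat.testBit_one_eq_true_iff_self_eq_zero] at hz
  subst hz3
  exact ⟨x.2, Reachable.refl _⟩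

lemma reach_iff (m : ℕ) (x z : Fin 7) (h1 : closedB m x = true) :
    (spanning (cfg m)).Reachable x z ↔ (reach m x).testBit z = true := by
  constructor
  · rintro ⟨w⟩
    unfold closedB at h1
    rw [Bool.and_eq_true, List.all_eq_true] at h1
    obtain ⟨hx, hcl⟩ := h1
    have key : ∀ (a b : Fin 7), (spanning (cfg m)).Adj a b →
        ((reach m x).testBit a = (reach m x).testBit b) := by
      intro a b hab
      unfold spanning at hab
      rw [fromEdgeSet_adj] at hab
      obtain ⟨hab1, -⟩ := hab
      obtain ⟨i, hi, hie⟩ := (mem_cfg m _).mp (Finset.mem_coe.mp hab1)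
      have h2 := hcl _ (ed_eL i)
      simp only [hi, Bool.not_true, Bool.false_or, beq_iff_eq] at h2
      unfold ed at hie
      rw [Sym2.eq_iff] at hie
      rcases hie with ⟨h3, h4⟩ | ⟨h3, h4⟩
      · rw [← h3, ← h4]
        exact h2
      · rw [← h3, ← h4]
        exact h2.symm
    have : ∀ (a b : Fin 7) (w : (spanning (cfg m)).Walk a b),
        (reach m x).testBit a = (reach m x).testBit b := by
      intro a b w
      induction w with
      | nil => rfl
      | cons h _ ih => exact (key _ _ h).trans ih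
    rw [← this x z w]
    exact hx
  · intro h
    obtain ⟨_, hr⟩ := inv_reach m x z h
    exact hr

/-! ### Graph theoretic characterisations -/

lemma edgeSet_spanning (A : Finset (Sym2 (Fin 7))) (hA : A ⊆ book.edgeFinset) :
    (spanning A).edgeSet = (A : Set (Sym2 (Fin 7))) := by
  unfold spanning
  rw [edgeSet_fromEdgeSet]
  ext e
  simp only [Set.mem_sdiff, Finset.mem_coe]
  constructor
  · exact fun h => h.1
  · intro h
    refine ⟨h, ?_⟩
    have h1 : e ∈ book.edgeSet := mem_edgeFinset.mp (hA h)
    exact book.not_isDiag_of_mem_edgeSet h1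

lemma card_edgeSet_spanning (A : Finset (Sym2 (Fin 7))) (hA : A ⊆ book.edgeFinset) :
    Nat.card (spanning A).edgeSet = #A := by
  rw [edgeSet_spanning A hA]
  simp

lemma connected_iff (H : SimpleGraph (Fin 7)) : H.Connected ↔ ∀ z, H.Reachable 0 z := by
  constructor
  · exact fun h z => h.preconnected 0 z
  · intro h
    have : Nonempty (Fin 7) := ⟨0⟩
    exact ⟨fun x y => (h x).symm.trans (h y)⟩

lemma isTree_iff (A : Finset (Sym2 (Fin 7))) (hA : A ⊆ book.edgeFinset) :
    (spanning A).IsTree ↔ #A = 6 ∧ ∀ z, (spanning A).Reachable 0 z := by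
  rw [isTree_iff_connected_and_card, card_edgeSet_spanning A hA, connected_iff]
  simp only [Nat.card_eq_fintype_card, Fintype.card_fin]
  constructor
  · rintro ⟨h1, h2⟩
    exact ⟨by omega, h1⟩
  · rintro ⟨h1, h2⟩
    exact ⟨h2, by omega⟩

/-- A graph in which `0` and `y` are separated and meet all components has two components. -/
lemma card_comp_of (H : SimpleGraph (Fin 7)) (y : Fin 7) (h1 : ¬ H.Reachable 0 y)
    (h2 : ∀ z, H.Reachable 0 z ∨ H.Reachable y z) : Nat.card H.ConnectedComponent = 2 := by
  rw [Nat.card_eq_two_iff]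
  refine ⟨H.connectedComponentMk 0, H.connectedComponentMk y, ?_, ?_⟩
  · intro h
    exact h1 (ConnectedComponent.exact h)
  · ext c
    simp only [Set.mem_insert_iff, Set.mem_singleton_iff, Set.mem_univ, iff_true]
    induction c using ConnectedComponent.ind with
    | h z =>
      rcases h2 z with h | h
      · left
        exact ConnectedComponent.sound h.symm
      · right
        exact ConnectedComponent.sound h.symm

lemma exists_of_card_comp (H : SimpleGraph (Fin 7)) (h : Nat.card H.ConnectedComponent = 2) :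
    ∃ y, ¬ H.Reachable 0 y ∧ ∀ z, H.Reachable 0 z ∨ H.Reachable y z := by
  rw [Nat.card_eq_two_iff] at h
  obtain ⟨c, d, hcd, huniv⟩ := h
  have hmem : ∀ e : H.ConnectedComponent, e = c ∨ e = d := by
    intro e
    have : e ∈ ({c, d} : Set H.ConnectedComponent) := by rw [huniv]; trivial
    simpa using this
  -- arrange that `c` is the component of `0`
  have main : ∀ c d : H.ConnectedComponent, c ≠ d → (∀ e, e = c ∨ e = d) →
      H.connectedComponentMk 0 = c →
      ∃ y, ¬ H.Reachable 0 y ∧ ∀ z, H.Reachable 0 z ∨ H.Reachable y z := by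
    intro c d hcd hmem h0
    induction d using ConnectedComponent.ind with
    | h y =>
      refine ⟨y, ?_, ?_⟩
      · intro hr
        apply hcd
        rw [← h0]
        exact ConnectedComponent.sound hr
      · intro z
        rcases hmem (H.connectedComponentMk z) with hz | hz
        · left
          rw [← h0] at hz
          exact (ConnectedComponent.exact hz).symm
        · right
          exact (ConnectedComponent.exact hz).symm
  rcases hmem (H.connectedComponentMk 0) with h0 | h0
  · exact main c d hcd hmem h0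
  · exact main d c hcd.symm (fun e => (hmem e).symm) h0

lemma sup_edge_connected (H : SimpleGraph (Fin 7)) (y : Fin 7) (h0y : (0 : Fin 7) ≠ y)
    (h2 : ∀ z, H.Reachable 0 z ∨ H.Reachable y z) : (H ⊔ edge 0 y).Connected := by
  rw [connected_iff]
  intro z
  rcases h2 z with h | h
  · exact h.mono le_sup_left
  · have h3 : (H ⊔ edge 0 y).Adj 0 y := by
      right
      rw [edge_adj]
      exact ⟨Or.inl ⟨rfl, rfl⟩, h0y⟩
    exact h3.reachable.trans (h.mono le_sup_left)

lemma card_edgeSet_sup (A : Finset (Sym2 (Fin 7))) (hA : A ⊆ book.edgeFinset) (y : Fin 7)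
    (h : ¬ (spanning A).Reachable 0 y) :
    Nat.card (spanning A ⊔ edge 0 y).edgeSet = #A + 1 := by
  have h0y : (0 : Fin 7) ≠ y := fun h' => h (h' ▸ Reachable.refl _)
  have hnot : s(0, y) ∉ A := by
    intro hmem
    apply h
    have : (spanning A).Adj 0 y := by
      unfold spanning
      rw [fromEdgeSet_adj]
      exact ⟨Finset.mem_coe.mpr hmem, h0y⟩
    exact this.reachable
  have : (spanning A ⊔ edge 0 y).edgeSet = ((insert s(0, y) A : Finset (Sym2 (Fin 7))) :
      Set (Sym2 (Fin 7))) := by
    rw [edgeSet_sup, edgeSet_spanning A hA, edgeSet_edge_of_ne h0y]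
    ext e
    simp [or_comm]
  rw [this]
  simp [Finset.card_insert_of_notMem hnot]

lemma twoForest_iff (A : Finset (Sym2 (Fin 7))) (hA : A ⊆ book.edgeFinset) :
    ((spanning A).IsAcyclic ∧ Nat.card (spanning A).ConnectedComponent = 2) ↔
      #A = 5 ∧ ∃ y, ¬ (spanning A).Reachable 0 y ∧
        ∀ z, (spanning A).Reachable 0 z ∨ (spanning A).Reachable y z := by
  constructor
  · rintro ⟨hac, hcard⟩
    obtain ⟨y, hy1, hy2⟩ := exists_of_card_comp _ hcard
    have h0y : (0 : Fin 7) ≠ y := fun h' => hy1 (h' ▸ Reachable.refl _)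
    have htree : (spanning A ⊔ edge 0 y).IsTree :=
      ⟨sup_edge_connected _ y h0y hy2, hac.sup_edge_of_not_reachable hy1⟩
    have h1 := (isTree_iff_connected_and_card.mp htree).2
    rw [card_edgeSet_sup A hA y hy1] at h1
    simp only [Nat.card_eq_fintype_card, Fintype.card_fin] at h1
    exact ⟨by omega, y, hy1, hy2⟩
  · rintro ⟨h5, y, hy1, hy2⟩
    have h0y : (0 : Fin 7) ≠ y := fun h' => hy1 (h' ▸ Reachable.refl _)
    have htree : (spanning A ⊔ edge 0 y).IsTree := by
      rw [isTree_iff_connected_and_card, card_edgeSet_sup A hA y hy1, h5]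
      exact ⟨sup_edge_connected _ y h0y hy2, by simp⟩
    exact ⟨htree.isAcyclic.anti le_sup_left, card_comp_of _ y hy1 hy2⟩

/-! ### Boolean tests for codes -/

/-- Boolean test for spanning trees. -/
def isT (m : ℕ) : Bool := cnt m == 6 && reach m 0 == 127

/-- Boolean test for 2-forests. -/
def is2 (m : ℕ) : Bool := cnt m == 5 && (reach m 0 ||| reach m (firstOut (reach m 0))) == 127

lemma testBit_127 (z : Fin 7) : (127 : ℕ).testBit z = true := by
  revert z
  decide +kernel

lemma eq_127_of (S : ℕ) (h1 : ∀ z, S.testBit z = true → z < 7)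
    (h2 : ∀ z : Fin 7, S.testBit z = true) : S = 127 := by
  apply Nat.eq_of_testBit_eq
  intro i
  by_cases hi : i < 7
  · rw [h2 ⟨i, hi⟩, testBit_127 ⟨i, hi⟩]
  · have h3 : S.testBit i = false := by
      cases h : S.testBit i with
      | false => rfl
      | true => exact absurd (h1 i h) hi
    have hle : 127 < 2 ^ i :=
      lt_of_lt_of_le (by norm_num) (Nat.pow_le_pow_right (by norm_num) (show 7 ≤ i by omega))
    rw [h3, Nat.testBit_lt_two_pow hle]

lemma reach_lt (m : ℕ) (x : Fin 7) (z : ℕ) (h : (reach m x).testBit z = true) : z < 7 :=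
  (inv_reach m x z h).1

lemma tree_cfg (m : ℕ) (hm : m < 2048) : (spanning (cfg m)).IsTree ↔ isT m = true := by
  rw [isTree_iff _ (cfg_subset m), card_cfg m hm]
  unfold isT
  rw [Bool.and_eq_true, beq_iff_eq, beq_iff_eq]
  refine and_congr_right ?_
  intro h6
  have hchk := check_all m (List.mem_range.mpr hm)
  unfold check at hchk
  rw [h6] at hchk
  have hcl : closedB m ((0 : Fin 7) : ℕ) = true := by
    simpa using hchk
  constructor
  · intro h
    refine eq_127_of _ (reach_lt m 0) ?_
    intro z
    exact (reach_iff m 0 z hcl).mp (h z)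
  · intro h z
    rw [reach_iff m 0 z hcl]
    show (reach m 0).testBit z = true
    rw [h]
    exact testBit_127 z

lemma firstOut_lt (S : ℕ) : firstOut S < 7 := by
  unfold firstOut
  cases S.testBit 1 <;> cases S.testBit 2 <;> cases S.testBit 3 <;> cases S.testBit 4 <;>
    cases S.testBit 5 <;> simp

lemma twoForest_cfg (m : ℕ) (hm : m < 2048) :
    ((spanning (cfg m)).IsAcyclic ∧ Nat.card (spanning (cfg m)).ConnectedComponent = 2) ↔
      is2 m = true := by
  rw [twoForest_iff _ (cfg_subset m), card_cfg m hm]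
  unfold is2
  rw [Bool.and_eq_true, beq_iff_eq, beq_iff_eq]
  refine and_congr_right ?_
  intro h5
  have hchk := check_all m (List.mem_range.mpr hm)
  unfold check at hchk
  rw [h5] at hchk
  have hchk' : closedB m 0 = true ∧ closedB m (firstOut (reach m 0)) = true ∧
      (reach m 0).testBit (firstOut (reach m 0)) = false := by
    simpa [Bool.and_eq_true] using hchk
  obtain ⟨hcl0, hcly, hout⟩ := hchk'
  set y : Fin 7 := ⟨firstOut (reach m 0), firstOut_lt _⟩ with hy
  have hcl0' : closedB m ((0 : Fin 7) : ℕ) = true := hcl0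
  have hcly' : closedB m ((y : Fin 7) : ℕ) = true := hcly
  have hnot : ¬ (spanning (cfg m)).Reachable 0 y := by
    rw [reach_iff m 0 y hcl0']
    show ¬ ((reach m 0).testBit (firstOut (reach m 0)) = true)
    rw [hout]
    simp
  constructor
  · rintro ⟨y', hy1, hy2⟩
    have hyy : (spanning (cfg m)).Reachable y' y := (hy2 y).resolve_left hnot
    apply eq_127_of
    · intro z hz
      rw [Nat.testBit_or, Bool.or_eq_true] at hz
      rcases hz with hz | hz
      · exact reach_lt m 0 z hz
      · exact reach_lt m y z hz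
    · intro z
      rw [Nat.testBit_or, Bool.or_eq_true]
      rcases hy2 z with h | h
      · left
        exact (reach_iff m 0 z hcl0').mp h
      · right
        exact (reach_iff m y z hcly').mp (hyy.symm.trans h)
  · intro h
    refine ⟨y, hnot, ?_⟩
    intro z
    have hz : (reach m 0 ||| reach m (firstOut (reach m 0))).testBit z = true := by
      rw [h]
      exact testBit_127 z
    rw [Nat.testBit_or, Bool.or_eq_true] at hz
    rcases hz with hz | hz
    · left
      exact (reach_iff m 0 z hcl0').mpr hz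
    · right
      exact (reach_iff m y z hcly').mpr hz

/-! ### The counts -/

set_option maxRecDepth 100000 in
lemma count_T : #{m ∈ Finset.range 2048 | isT m = true} = 112 := by
  decide +kernel

set_option maxRecDepth 100000 in
lemma count_Te : #{m ∈ Finset.range 2048 | (isT m && m.testBit 0) = true} = 32 := by
  decide +kernel

set_option maxRecDepth 100000 in
lemma count_2 : #{m ∈ Finset.range 2048 | is2 m = true} = 272 := by
  decide +kernel

set_option maxRecDepth 100000 in
lemma count_2e : #{m ∈ Finset.range 2048 | (is2 m && m.testBit 0) = true} = 80 := by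
  decide +kernel

lemma mem_e (m : ℕ) : s((0 : Fin 7), (1 : Fin 7)) ∈ cfg m ↔ m.testBit 0 = true :=
  ed_mem_cfg m 0

lemma subset_iff (A : Finset (Sym2 (Fin 7))) :
    (A : Set (Sym2 (Fin 7))) ⊆ book.edgeSet ↔ A ∈ book.edgeFinset.powerset := by
  rw [Finset.mem_powerset, ← Finset.coe_subset, coe_edgeFinset]

/-- Count of a set of configurations by codes. -/
lemma ncard_eq (P : Finset (Sym2 (Fin 7)) → Prop) (Q : ℕ → Bool)
    (h : ∀ m < 2048, P (cfg m) ↔ Q m = true) :
    {A : Finset (Sym2 (Fin 7)) | (A : Set (Sym2 (Fin 7))) ⊆ book.edgeSet ∧ P A}.ncard =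
      #{m ∈ Finset.range 2048 | Q m = true} := by
  classical
  rw [← card_filter P Q h, ← Set.ncard_coe_finset]
  congr 1
  ext A
  simp only [Finset.coe_filter, Set.mem_ofPred_eq, subset_iff]

lemma card_trees : (spanningTrees book).ncard = 112 := by
  rw [← count_T]
  exact ncard_eq (fun A => (spanning A).IsTree) isT tree_cfg

lemma card_trees_e : {A ∈ spanningTrees book | s((0 : Fin 7), (1 : Fin 7)) ∈ A}.ncard = 32 := by
  rw [← count_Te, ← ncard_eq (fun A => (spanning A).IsTree ∧ s((0 : Fin 7), (1 : Fin 7)) ∈ A)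
    (fun m => isT m && m.testBit 0) (fun m hm => by
      rw [tree_cfg m hm, mem_e, Bool.and_eq_true])]
  congr 1
  ext A
  exact and_assoc

lemma card_twoForests : (twoForests book).ncard = 272 := by
  rw [← count_2]
  exact ncard_eq (fun A => (spanning A).IsAcyclic ∧
    Nat.card (spanning A).ConnectedComponent = 2) is2 twoForest_cfg

lemma card_twoForests_e : {A ∈ twoForests book | s((0 : Fin 7), (1 : Fin 7)) ∈ A}.ncard = 80 := by
  rw [← count_2e, ← ncard_eq (fun A => ((spanning A).IsAcyclic ∧
    Nat.card (spanning A).ConnectedComponent = 2) ∧ s((0 : Fin 7), (1 : Fin 7)) ∈ A)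
    (fun m => is2 m && m.testBit 0) (fun m hm => by
      rw [twoForest_cfg m hm, mem_e, Bool.and_eq_true])]
  congr 1
  ext A
  exact and_assoc

lemma book_connected : book.Connected := by
  rw [connected_iff]
  intro z
  by_cases hz : z = 0
  · rw [hz]
  · have : book.Adj 0 z := ⟨fun h => hz h.symm, Or.inl (by decide)⟩
    exact this.reachable

/-- **Disproof of the edge marginal inequalities.** There are a finite connected simple graph `G`
(on `7` vertices with `11 ≥ 7 + 2` edges) and an edge `e` of `G` such that `e` is open with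
probability `5/17` under the uniform 2-forest and only `2/7` under the uniform spanning tree.
In particular the chain `P_2UF ≤ P_UST ≤ P_2UC` fails. -/
theorem result :
    ∃ (G : SimpleGraph (Fin 7)) (e : Sym2 (Fin 7)),
      G.Connected ∧ 2 ≤ Nat.card (Fin 7) ∧ G.edgeSet.ncard = 11 ∧
      Nat.card (Fin 7) + 2 ≤ G.edgeSet.ncard ∧ e ∈ G.edgeSet ∧
      marginal (twoForests G) e = 5 / 17 ∧ marginal (spanningTrees G) e = 2 / 7 ∧
      ¬ (marginal (twoForests G) e ≤ marginal (spanningTrees G) e ∧
        marginal (spanningTrees G) e ≤ marginal (excessTwo G) e) := by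
  have h1 : marginal (twoForests book) s((0 : Fin 7), (1 : Fin 7)) = 5 / 17 := by
    unfold marginal
    rw [card_twoForests, card_twoForests_e]
    norm_num
  have h2 : marginal (spanningTrees book) s((0 : Fin 7), (1 : Fin 7)) = 2 / 7 := by
    unfold marginal
    rw [card_trees, card_trees_e]
    norm_num
  have h3 : book.edgeSet.ncard = 11 := by
    rw [← coe_edgeFinset, Set.ncard_coe_finset, card_edges]
  refine ⟨book, s(0, 1), book_connected, by simp, h3, ?_, mem_edgeFinset.mp (ed_mem 0), h1, h2, ?_⟩
  · rw [h3]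
    simp
  · rw [h1, h2]
    rintro ⟨h, -⟩
    norm_num at h

end Pool.Agent.Results.MP_83c1a8_pr.BookGraph
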